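import Pool.Agent.Helper49.UG.MLast
import Pool.Agent.Helper66.UW.Cell

/-!
# UW: block Z5 (`mLast`), from M5 and R7 (port of Helper49/UG/MLast)
-/

set_option autoImplicit false
open MeasureTheory Set Filter Topology
open Pool.Agent.Helper57.Zeta Pool.Agent.Helper57.LH Pool.Agent.Helper57.ED Pool.Agent.Helper54.LG
open Pool.Agent.Helper69.UG (pt XX NR NM WW)
open Pool.Agent.Helper49.UG (M2 log_M2 pt_re)
open Pool.Agent.Helper69.UW

namespace Pool.Agent.Helper17.UW

/-- statement of M5 -/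
def Fm17 (δ : ℝ) : Prop := ∃ C c0 T0 : ℝ, 0 < C ∧ ∀ T c m v : ℝ, T0 ≤ T → Adm c0 T c m → |v| = vv δ c m →
    ∀ τ u y : ℝ, |τ| ≤ 2 * T → |u| ≤ 2 * T → 1 ≤ y → y ≤ Real.log T / 4 →
    Integrable (fun t => wt δ T c m v τ t * ‖FF T (PR δ T c m) (pt T y (t + u)) - 1‖ ^ 2) ∧
    ∫ t, wt δ T c m v τ t * ‖FF T (PR δ T c m) (pt T y (t + u)) - 1‖ ^ 2 ≤
      C * Real.exp (C * √m - y / 16) * VV δ T c m v

/-- statement of R7 -/
def M417 (δ : ℝ) : Prop := ∃ A c0 T0 : ℝ, ∀ T c m v : ℝ, T0 ≤ T → Adm c0 T c m → |v| = vv δ c m →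
    ∀ τ : ℝ, Integrable (fun t => PW (WW T) (t - τ) * ‖RR δ T c m v t‖ ^ 4) ∧
    ∫ t, PW (WW T) (t - τ) * ‖RR δ T c m v t‖ ^ 4 ≤ Real.exp (A * c) * VV δ T c m v ^ 2

lemma R_cont17 {δ T c m v : ℝ} : Continuous (fun t => ‖RR δ T c m v t‖ ^ 2) := by
  apply Continuous.pow
  apply Continuous.norm
  unfold RR
  refine continuous_finsetSum _ fun n hn => ?_
  apply continuous_const.mul
  apply Continuous.const_cpow (by fun_prop)
  left
  have : 1 ≤ n := (Finset.mem_Icc.mp hn).1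
  have : n ≠ 0 := by omega
  exact_mod_cast this

lemma P_cont17 {T τ : ℝ} (hT : 0 < T) : Continuous (fun t => PW (WW T) (t - τ)) := by
  have hW : 0 < WW T := Real.rpow_pos_of_pos hT _
  unfold PW
  have hpi := Real.pi_pos
  apply Continuous.div continuous_const (by fun_prop)
  intro t
  positivity

lemma wt_cont17 {δ T c m v τ : ℝ} (hT : 0 < T) : Continuous (wt δ T c m v τ) := (P_cont17 hT).mul R_cont17

lemma wt_nonneg17 {δ T c m v τ : ℝ} (hT : 0 < T) (t : ℝ) : 0 ≤ wt δ T c m v τ t :=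
  mul_nonneg (PW_pos (Real.rpow_pos_of_pos hT _) _).le (sq_nonneg _)

lemma one_le_VV17 {δ T c m v : ℝ} (hT : 1 ≤ T) : 1 ≤ VV δ T c m v := by
  have h1 : 1 ≤ NR T := by
    unfold NR
    apply Nat.le_floor
    rw [Nat.cast_one]
    exact Real.one_le_rpow hT (by norm_num)
  have h2 : rr δ T c m v 1 = 1 := by
    unfold rr
    rw [if_pos]
    · simp
    · simp
  unfold VV
  calc (1:ℝ) = rr δ T c m v 1 ^ 2 / (1 : ℕ) := by rw [h2]; norm_num
    _ ≤ _ := Finset.single_le_sum (f := fun n : ℕ => rr δ T c m v n ^ 2 / (n : ℝ)) (fun n _ => by positivity)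
        (Finset.mem_Icc.2 ⟨le_rfl, h1⟩)

/-- the amplitude -/
noncomputable def amp17 (C m V y : ℝ) : ℝ := √(C * Real.exp (C * √m) * V) * Real.exp (-(y / 32))

lemma amp_sq17 {C m V y : ℝ} (hC : 0 < C) (hV : 1 ≤ V) :
    amp17 C m V y ^ 2 = C * Real.exp (C * √m - y / 16) * V := by
  unfold amp17
  rw [mul_pow, Real.sq_sqrt (by positivity), ← Real.exp_nat_mul]
  have e : Real.exp (C * √m - y / 16) = Real.exp (C * √m) * Real.exp ((2 : ℕ) * (-(y / 32))) := by
    rw [← Real.exp_add]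
    congr 1
    push_cast
    ring
  rw [e]
  ring

lemma amp_pos17 {C m V : ℝ} (y : ℝ) (hC : 0 < C) (hV : 1 ≤ V) : 0 < amp17 C m V y := by
  unfold amp17
  positivity

/-- M5 as a second moment -/
lemma D_M217 {δ C T c m v τ u y : ℝ} {Q : Finset ℕ} (hC : 0 < C) (hT : 3 ≤ T) (hy : y ≤ Real.log T / 4)
    (h : Integrable (fun t => wt δ T c m v τ t * ‖FF T Q (pt T y (t + u)) - 1‖ ^ 2) ∧
    ∫ t, wt δ T c m v τ t * ‖FF T Q (pt T y (t + u)) - 1‖ ^ 2 ≤ C * Real.exp (C * √m - y / 16) * VV δ T c m v) :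
    M2 (wt δ T c m v τ) (fun t => ‖FF T Q (pt T y (t + u)) - 1‖) (amp17 C m (VV δ T c m v) y) := by
  have hL : 0 < Real.log T := Real.log_pos (by linarith)
  refine ⟨?_, fun t => norm_nonneg _, h.1, ?_⟩
  · apply Continuous.norm
    apply Continuous.sub _ continuous_const
    rw [continuous_iff_continuousAt]
    intro t
    have hne : pt T y (t + u) ≠ 1 := by
      intro h1
      have h2 := congrArg Complex.re h1
      rw [pt_re, Complex.one_re] at h2
      have h3 : y / Real.log T ≤ 1 / 4 := by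
        rw [div_le_iff₀ hL]
        linarith
      linarith
    have h4 : Continuous (fun t : ℝ => pt T y (t + u)) := by
      unfold pt
      fun_prop
    exact ContinuousAt.comp (f := fun t : ℝ => pt T y (t + u)) (Pool.Agent.Helper66.UW.FF_an T Q hne).continuousAt h4.continuousAt
  · rw [amp_sq17 hC (one_le_VV17 (by linarith))]
    exact h.2

/-- Z5 -/
theorem mLast_of {δ : ℝ} (hfm : Fm17 δ) (hm4 : M417 δ) : ∃ c0 T0 : ℝ, ∀ T c m v : ℝ, T0 ≤ T → Adm c0 T c m →
    |v| = vv δ c m →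
    ∀ τ u y : ℝ, |τ| ≤ 2 * T → |u| ≤ T → 2 ≤ y → ∀ K : ℕ, 1 ≤ K → 4 * 2 ^ K * y ≤ Real.log T / 4 →
    Real.log T / 4 < 8 * 2 ^ K * y →
    Integrable (fun t => wt δ T c m v τ t * (Real.log (4 + |t + u|) * cen T (PR δ T c m) y (K - 1) (t + u))) ∧
    ∫ t, wt δ T c m v τ t * (Real.log (4 + |t + u|) * cen T (PR δ T c m) y (K - 1) (t + u)) ≤
      T ^ (-(1 / 1000) : ℝ) * VV δ T c m v := by
  obtain ⟨C, c1, T1, hC, h1⟩ := hfm
  obtain ⟨A, c2, T2, h2⟩ := hm4
  obtain ⟨C2, hC2, h3⟩ := log_M2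
  -- the size of T
  obtain ⟨D, hD⟩ : ∃ D, D = |A| / 4 + C / 2 := ⟨_, rfl⟩
  have hD0 : 0 < D := by rw [hD]; positivity
  have hev : ∀ᶠ T : ℝ in atTop, 256 * D ≤ Real.log (Real.log T) ∧
      √(C2 * C) * Real.log T ≤ T ^ (1 / 2000 : ℝ) := by
    have e1 : Tendsto (fun T : ℝ => Real.log (Real.log T)) atTop atTop :=
      Real.tendsto_log_atTop.comp Real.tendsto_log_atTop
    have e2 : (fun T : ℝ => √(C2 * C) * Real.log T) =o[atTop] fun T : ℝ => T ^ (1 / 2000 : ℝ) :=
      (isLittleO_log_rpow_atTop (by norm_num)).const_mul_left _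
    have e3 := e2.bound (show (0:ℝ) < 1 by norm_num)
    filter_upwards [e1.eventually_ge_atTop (256 * D), e3, eventually_gt_atTop (0:ℝ)] with T a1 a2 a3
    refine ⟨a1, ?_⟩
    rw [one_mul, Real.norm_eq_abs, Real.norm_of_nonneg (Real.rpow_nonneg a3.le _)] at a2
    exact (le_abs_self _).trans a2
  obtain ⟨T3, hT3⟩ := eventually_atTop.1 hev
  refine ⟨max (max c1 c2) 1, max (max T1 T2) (max T3 3), ?_⟩
  intro T c m v hT hc hv τ u y hτ hu hy K hK hKy hKy2
  have g1 : T1 ≤ T := (le_max_left _ _).trans ((le_max_left _ _).trans hT)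
  have g2 : T2 ≤ T := (le_max_right _ _).trans ((le_max_left _ _).trans hT)
  have g3 : T3 ≤ T := (le_max_left _ _).trans ((le_max_right _ _).trans hT)
  have g4 : 3 ≤ T := (le_max_right _ _).trans ((le_max_right _ _).trans hT)
  have hT0 : 0 < T := by linarith
  have hL : 0 < Real.log T := Real.log_pos (by linarith)
  have hc3 : 3 ≤ c := hc.1
  have hm1 : 1 ≤ m := hc.2.1
  have hmc : m ≤ c := hc.m_le_c (le_max_right _ _)
  obtain ⟨V, hVV⟩ : ∃ V, V = VV δ T c m v := ⟨_, rfl⟩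
  have hV : 1 ≤ V := by rw [hVV]; exact one_le_VV17 (by linarith)
  have hfm := h1 T c m v g1 (hc.mono ((le_max_left _ _).trans (le_max_left _ _))) hv τ
  have hm := h2 T c m v g2 (hc.mono ((le_max_right _ _).trans (le_max_left _ _))) hv τ
  have hl := h3 T u τ g4 hu hτ
  obtain ⟨q1, q2⟩ := hT3 T g3
  have hw := wt_cont17 (δ := δ) (T := T) (c := c) (m := m) (v := v) (τ := τ) hT0
  have hw0 := wt_nonneg17 (δ := δ) (T := T) (c := c) (m := m) (v := v) (τ := τ) hT0
  have hW : 0 < WW T := Real.rpow_pos_of_pos hT0 _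
  have hPc := P_cont17 (T := T) (τ := τ) hT0
  -- resonator
  have hR : M2 (fun t => PW (WW T) (t - τ)) (fun t => ‖RR δ T c m v t‖ ^ 2) (Real.exp (|A| * c / 2) * V) := by
    have e : ∀ t, PW (WW T) (t - τ) * (‖RR δ T c m v t‖ ^ 2) ^ 2 = PW (WW T) (t - τ) * ‖RR δ T c m v t‖ ^ 4 :=
      fun t => by ring
    refine ⟨R_cont17, fun t => sq_nonneg _, ?_, ?_⟩
    · simp_rw [e]
      exact hm.1
    · simp_rw [e]
      refine hm.2.trans ?_
      rw [mul_pow, ← Real.exp_nat_mul, ← hVV]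
      apply mul_le_mul_of_nonneg_right _ (sq_nonneg _)
      rw [Real.exp_le_exp]
      have := mul_le_mul_of_nonneg_right (le_abs_self A) (show 0 ≤ c by linarith)
      push_cast
      linarith
  have hRl := hR.mul hPc (fun t => (PW_pos hW _).le) hl (by positivity) (by positivity)
  obtain ⟨B, hB⟩ : ∃ B, B = √(Real.exp (|A| * c / 2) * V * (C2 * Real.log T ^ 2)) := ⟨_, rfl⟩
  have hB0 : 0 < B := by rw [hB]; positivity
  have hB2 : B ^ 2 = Real.exp (|A| * c / 2) * V * (C2 * Real.log T ^ 2) := by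
    rw [hB, Real.sq_sqrt (by positivity)]
  have hlog : M2 (wt δ T c m v τ) (fun t => Real.log (4 + |t + u|)) B := by
    have e : ∀ t, wt δ T c m v τ t * Real.log (4 + |t + u|) ^ 2 =
        PW (WW T) (t - τ) * (‖RR δ T c m v t‖ ^ 2 * Real.log (4 + |t + u|) ^ 2) := fun t => by unfold wt; ring
    refine ⟨?_, fun t => Real.log_nonneg (by linarith [abs_nonneg (t + u)]), ?_, ?_⟩
    · apply Continuous.log (by fun_prop)
      intro t
      have := abs_nonneg (t + u)
      linarith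
    · simp_rw [e]
      exact hRl.1
    · simp_rw [e]
      rw [hB2]
      exact hRl.2
  -- the centre
  have hpow : (2:ℝ) ^ K = 2 * 2 ^ (K - 1) := by
    rw [← pow_succ']
    congr 1
    omega
  have hp1 : (1:ℝ) ≤ 2 ^ (K - 1) := one_le_pow₀ (by norm_num)
  have hcen : M2 (wt δ T c m v τ) (fun t => cen T (PR δ T c m) y (K - 1) (t + u)) (amp17 C m V (4 * 2 ^ (K - 1) * y)) := by
    rw [hVV]
    exact D_M217 hC g4 (by rw [hpow] at hKy; nlinarith)
      (hfm u _ hτ (by linarith) (by nlinarith) (by rw [hpow] at hKy; nlinarith))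
  have hfin := hlog.mul hw hw0 hcen hB0 (amp_pos17 _ hC hV)
  refine ⟨hfin.1, hfin.2.trans ?_⟩
  rw [← hVV]
  -- the numbers
  have hloglog : 0 < Real.log (Real.log T) := lt_of_lt_of_le (by positivity) q1
  have hcL : D * c ≤ Real.log T / 4096 := by
    have h4 := hc.2.2.2.2
    have h5 : c * (256 * D) ≤ c * Real.log (Real.log T) := mul_le_mul_of_nonneg_left q1 (by linarith)
    have h6 : 0 ≤ D * c := by positivity
    linarith
  have hsc : √m ≤ c := by
    have h4 : √m ≤ m := by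
      rw [Real.sqrt_le_left (by linarith)]
      nlinarith
    linarith
  have hamp : amp17 C m V (4 * 2 ^ (K - 1) * y) ≤ √(C * Real.exp (C * √m) * V) * Real.exp (-(Real.log T / 512)) := by
    unfold amp17
    apply mul_le_mul_of_nonneg_left _ (Real.sqrt_nonneg _)
    rw [Real.exp_le_exp]
    rw [hpow] at hKy2
    linarith
  have hprod : B * √(C * Real.exp (C * √m) * V) = √(C2 * C) * Real.log T * V * Real.exp (|A| * c / 4 + C * √m / 2) := by
    rw [hB, ← Real.sqrt_mul (by positivity)]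
    have e1 : Real.exp (|A| * c / 2) * V * (C2 * Real.log T ^ 2) * (C * Real.exp (C * √m) * V) =
        (C2 * C) * (Real.log T * V * Real.exp (|A| * c / 4 + C * √m / 2)) ^ 2 := by
      rw [mul_pow (Real.log T * V), ← Real.exp_nat_mul]
      have e2 : Real.exp ((2 : ℕ) * (|A| * c / 4 + C * √m / 2)) = Real.exp (|A| * c / 2) * Real.exp (C * √m) := by
        rw [← Real.exp_add]
        congr 1
        push_cast
        ring
      rw [e2]
      ring
    rw [e1, Real.sqrt_mul (by positivity), Real.sqrt_sq (by positivity)]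
    ring
  have hexp : Real.exp (|A| * c / 4 + C * √m / 2) ≤ Real.exp (Real.log T / 4096) := by
    rw [Real.exp_le_exp]
    have h4 : C * √m / 2 ≤ C * c / 2 := by
      have := mul_le_mul_of_nonneg_left hsc hC.le
      linarith
    have h5 : |A| * c / 4 + C * c / 2 = D * c := by rw [hD]; ring
    linarith
  have hrp : ∀ a : ℝ, Real.exp (a * Real.log T) = T ^ a := fun a => by
    rw [Real.rpow_def_of_pos hT0, mul_comm]
  calc B * amp17 C m V (4 * 2 ^ (K - 1) * y) ≤ B * (√(C * Real.exp (C * √m) * V) * Real.exp (-(Real.log T / 512))) :=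
        mul_le_mul_of_nonneg_left hamp hB0.le
    _ = (√(C2 * C) * Real.log T) * V * Real.exp (|A| * c / 4 + C * √m / 2) * Real.exp (-(Real.log T / 512)) := by
        rw [← mul_assoc, hprod]
    _ ≤ T ^ (1 / 2000 : ℝ) * V * Real.exp (Real.log T / 4096) * Real.exp (-(Real.log T / 512)) := by
        apply mul_le_mul_of_nonneg_right _ (Real.exp_pos _).le
        apply mul_le_mul _ hexp (Real.exp_pos _).le (by positivity)
        exact mul_le_mul_of_nonneg_right q2 (by linarith)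
    _ = T ^ (1 / 2000 + 1 / 4096 - 1 / 512 : ℝ) * V := by
        have e3 : Real.exp (Real.log T / 4096) = T ^ (1 / 4096 : ℝ) := by
          rw [← hrp]
          congr 1
          ring
        have e4 : Real.exp (-(Real.log T / 512)) = T ^ (-(1 / 512) : ℝ) := by
          rw [← hrp]
          congr 1
          ring
        rw [e3, e4, sub_eq_add_neg, Real.rpow_add hT0, Real.rpow_add hT0]
        ring
    _ ≤ T ^ (-(1 / 1000) : ℝ) * V := by
        apply mul_le_mul_of_nonneg_right _ (by linarith)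
        exact Real.rpow_le_rpow_of_exponent_le (by linarith) (by norm_num)

end Pool.Agent.Helper17.UW
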